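import Mathlib

/-! Polymodal formulas, Kripke frames, and the correspondence for transitivity plus McKinsey. -/

namespace Pool.Agent.Q297.PFC

/-- Formulas of the polymodal language with boxes indexed by `I`. -/
inductive Form (I : Type) : Type
  | var : ℕ → Form I
  | neg : Form I → Form I
  | and : Form I → Form I → Form I
  | box : I → Form I → Form I

namespace Form

variable {I : Type}

/-- Implication, as an abbreviation. -/
def imp (A B : Form I) : Form I := neg (and A (neg B))

/-- Diamond, as an abbreviation. -/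
def dia (i : I) (A : Form I) : Form I := neg (box i (neg A))

/-- The conjunction of the transitivity formula and the McKinsey formula for `□_i`. -/
def lemmon (i : I) : Form I :=
  and (imp (box i (var 0)) (box i (box i (var 0))))
    (imp (box i (dia i (var 0))) (dia i (box i (var 0))))

end Form

/-- Truth at a world of a Kripke frame under a valuation. -/
def KSat {I W : Type} (R : I → W → W → Prop) (V : ℕ → Set W) : Form I → W → Prop
  | .var n, w => w ∈ V n
  | .neg A, w => ¬ KSat R V A w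
  | .and A B, w => KSat R V A w ∧ KSat R V B w
  | .box i A, w => ∀ v, R i w v → KSat R V A v

/-- Validity on a Kripke frame: truth at every world under every valuation. -/
def KValid {I W : Type} (R : I → W → W → Prop) (A : Form I) : Prop :=
  ∀ (V : ℕ → Set W) (w : W), KSat R V A w

section Split

variable {W : Type} (R : W → W → Prop) (x : W)

/-- Pairs of disjoint sets of successors of `x`, each of whose points sees the other set. -/
def GoodPair (A : Set (W × Bool)) : Prop :=
  ∀ w b, (w, b) ∈ A → R x w ∧ (w, !b) ∉ A ∧ ∃ v, R w v ∧ (v, !b) ∈ A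

theorem exists_maximal_pair : ∃ A, Maximal (fun A => A ∈ {A | GoodPair R x A}) A := by
  refine zorn_subset _ fun c hc hchain => ⟨⋃₀ c, ?_, fun s hs => Set.subset_sUnion_of_mem hs⟩
  intro w b hw
  obtain ⟨A, hA, hwA⟩ := hw
  obtain ⟨h₁, h₂, v, h₃, h₄⟩ := hc hA w b hwA
  refine ⟨h₁, ?_, v, h₃, A, hA, h₄⟩
  rintro ⟨B, hB, hwB⟩
  rcases hchain.total hA hB with h | h
  · exact (hc hB w b (h hwA)).2.1 hwB
  · exact h₂ (h hwB)

theorem goodPair_union {A B : Set (W × Bool)} (hA : GoodPair R x A) (hB : GoodPair R x B)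
    (hAB : ∀ w b b', (w, b) ∈ A → (w, b') ∉ B) : GoodPair R x (A ∪ B) := by
  rintro w b (hw | hw)
  · obtain ⟨h₁, h₂, v, h₃, h₄⟩ := hA w b hw
    refine ⟨h₁, ?_, v, h₃, Or.inl h₄⟩
    rintro (h | h)
    · exact h₂ h
    · exact hAB w b (!b) hw h
  · obtain ⟨h₁, h₂, v, h₃, h₄⟩ := hB w b hw
    refine ⟨h₁, ?_, v, h₃, Or.inr h₄⟩
    rintro (h | h)
    · exact hAB w (!b) b h hw
    · exact h₂ h

variable {R x}

/-- Below a point with no terminal point above it there is a nonempty good pair. -/
theorem exists_goodPair (htr : ∀ a b c, R a b → R b c → R a c)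
    (h : ∀ y, R x y → ∃ z, R y z ∧ z ≠ y) {y : W} (hy : R x y) :
    ∃ B : Set (W × Bool), GoodPair R x B ∧ B.Nonempty ∧ ∀ w b, (w, b) ∈ B → R y w := by
  classical
  have h' : ∀ y : {y // R x y}, ∃ z : {y // R x y}, R y.1 z.1 ∧ z ≠ y := by
    rintro ⟨y, hy⟩
    obtain ⟨z, hz, hne⟩ := h y hy
    exact ⟨⟨z, htr _ _ _ hy hz⟩, hz, fun e => hne (congrArg Subtype.val e)⟩
  choose g hg hgne using h'
  set f : ℕ → {y // R x y} := fun n => g^[n + 1] ⟨y, hy⟩ with hf
  have hstep : ∀ n, f (n + 1) = g (f n) := fun n => by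
    simp only [hf]
    rw [Function.iterate_succ_apply']
  have hRstep : ∀ n, R (f n).1 (f (n + 1)).1 := fun n => by rw [hstep]; exact hg _
  have hR : ∀ m n, m < n → R (f m).1 (f n).1 := by
    intro m n hmn
    induction n with
    | zero => omega
    | succ n ih =>
      rcases Nat.lt_succ_iff_lt_or_eq.1 hmn with h₁ | h₁
      · exact htr _ _ _ (ih h₁) (hRstep n)
      · subst h₁; exact hRstep m
  have hyf : ∀ n, R y (f n).1 := by
    intro n
    have h0 : R y (f 0).1 := hg ⟨y, hy⟩
    rcases Nat.eq_zero_or_pos n with h₁ | h₁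
    · subst h₁; exact h0
    · exact htr _ _ _ h0 (hR 0 n h₁)
  by_cases hinj : Function.Injective f
  · refine ⟨{q | ∃ n : ℕ, q = ((f n).1, decide (n % 2 = 0))}, ?_, ⟨_, 0, rfl⟩, ?_⟩
    · rintro w b ⟨n, hn⟩
      obtain ⟨rfl, rfl⟩ := Prod.mk.inj hn
      refine ⟨(f n).2, ?_, (f (n + 1)).1, hRstep n, n + 1, ?_⟩
      · rintro ⟨m, hm⟩
        obtain ⟨h₁, h₂⟩ := Prod.mk.inj hm
        have : n = m := hinj (Subtype.ext h₁)
        subst this
        simp at h₂
      · refine Prod.ext rfl ?_
        rcases Nat.mod_two_eq_zero_or_one n with h₁ | h₁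
        · have h₂ : (n + 1) % 2 = 1 := by omega
          simp [h₁, h₂]
        · have h₂ : (n + 1) % 2 = 0 := by omega
          simp [h₁, h₂]
    · rintro w b ⟨n, hn⟩
      obtain ⟨rfl, -⟩ := Prod.mk.inj hn
      exact hyf n
  · obtain ⟨m, n, hmn, hne⟩ : ∃ m n, f m = f n ∧ m < n := by
      simp only [Function.Injective, not_forall] at hinj
      obtain ⟨a, b, hab, hne⟩ := hinj
      rcases lt_or_gt_of_ne hne with h₁ | h₁
      · exact ⟨a, b, hab, h₁⟩
      · exact ⟨b, a, hab.symm, h₁⟩
    have hne' : (f (m + 1)).1 ≠ (f m).1 := by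
      intro e
      have : f (m + 1) = f m := Subtype.ext e
      rw [hstep] at this
      exact hgne _ this
    have hback : R (f (m + 1)).1 (f m).1 := by
      have h₁ : m + 1 < n := by
        rcases Nat.lt_or_ge (m + 1) n with h₂ | h₂
        · exact h₂
        · exfalso
          have : n = m + 1 := by omega
          subst this
          exact hne' (congrArg Subtype.val hmn.symm)
      rw [hmn]
      exact hR _ _ h₁
    refine ⟨{((f m).1, true), ((f (m + 1)).1, false)}, ?_, ⟨_, Or.inl rfl⟩, ?_⟩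
    · rintro w b (hw | hw)
      · obtain ⟨rfl, rfl⟩ := Prod.mk.inj hw
        refine ⟨(f m).2, ?_, (f (m + 1)).1, hRstep m, Or.inr rfl⟩
        rintro (h₁ | h₁)
        · simp at h₁
        · exact hne' (Prod.mk.inj h₁).1.symm
      · obtain ⟨rfl, rfl⟩ := Prod.mk.inj hw
        refine ⟨(f (m + 1)).2, ?_, (f m).1, hback, Or.inl rfl⟩
        rintro (h₁ | h₁)
        · exact hne' (Prod.mk.inj h₁).1
        · simp at h₁
    · rintro w b (hw | hw)
      · obtain ⟨rfl, rfl⟩ := Prod.mk.inj hw
        exact hyf m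
      · obtain ⟨rfl, rfl⟩ := Prod.mk.inj hw
        exact hyf (m + 1)

/-- If no successor of `x` is terminal, some set splits the successors of every successor. -/
theorem exists_split (htr : ∀ a b c, R a b → R b c → R a c)
    (h : ∀ y, R x y → ∃ z, R y z ∧ z ≠ y) :
    ∃ P : Set W, ∀ y, R x y → (∃ z, R y z ∧ z ∈ P) ∧ ∃ z, R y z ∧ z ∉ P := by
  obtain ⟨A, hA⟩ := exists_maximal_pair R x
  have hgood : GoodPair R x A := hA.1
  have key : ∀ y, R x y → ∃ w b, R y w ∧ (w, b) ∈ A := by
    intro y hy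
    by_contra hcon
    push Not at hcon
    obtain ⟨B, hB, ⟨⟨w, b⟩, hwB⟩, hyB⟩ := exists_goodPair htr h hy
    have hun : GoodPair R x (A ∪ B) :=
      goodPair_union R x hgood hB fun w b b' hw hw' => hcon w b (hyB w b' hw') hw
    have := hA.2 (show A ∪ B ∈ {A | GoodPair R x A} from hun) Set.subset_union_left
      (Or.inr hwB)
    exact hcon w b (hyB w b hwB) this
  refine ⟨{w | (w, true) ∈ A}, fun y hy => ?_⟩
  obtain ⟨w, b, hyw, hwA⟩ := key y hy
  obtain ⟨-, hnot, v, hwv, hvA⟩ := hgood w b hwA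
  cases b
  · refine ⟨⟨v, htr _ _ _ hyw hwv, hvA⟩, w, hyw, hnot⟩
  · refine ⟨⟨w, hyw, hwA⟩, v, htr _ _ _ hyw hwv, ?_⟩
    exact (hgood v _ hvA).2.1

end Split

/-- The classical correspondence: validity of transitivity plus McKinsey on a Kripke frame. -/
theorem kValid_lemmon {I W : Type} (R : I → W → W → Prop) (i : I) :
    KValid R (Form.lemmon i) ↔
      (∀ x y z, R i x y → R i y z → R i x z) ∧ ∀ x, ∃ y, R i x y ∧ ∀ z, R i y z → z = y := by
  constructor
  · intro hv
    have htr : ∀ x y z, R i x y → R i y z → R i x z := by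
      intro x y z hxy hyz
      have h₀ := hv (fun _ => {v | R i x v}) x
      simp only [Form.lemmon, Form.imp, Form.dia, KSat] at h₀
      have h₁ := h₀.1
      by_contra hcon
      exact h₁ ⟨fun v hv => hv, fun h₂ => hcon (h₂ y hxy z hyz)⟩
    refine ⟨htr, fun x => ?_⟩
    by_contra hcon
    push Not at hcon
    obtain ⟨P, hP⟩ := exists_split (R := R i) (x := x) htr hcon
    have h₀ := hv (fun _ => P) x
    simp only [Form.lemmon, Form.imp, Form.dia, KSat] at h₀
    have h₁ := h₀.2
    apply h₁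
    refine ⟨fun y hy h₂ => ?_, fun h₂ => h₂ fun y hy h₃ => ?_⟩
    · obtain ⟨z, hz, hzP⟩ := (hP y hy).1
      exact h₂ z hz hzP
    · obtain ⟨z, hz, hzP⟩ := (hP y hy).2
      exact hzP (h₃ z hz)
  · rintro ⟨htr, hterm⟩ V w
    simp only [Form.lemmon, Form.imp, Form.dia, KSat]
    refine ⟨?_, ?_⟩
    · rintro ⟨h₁, h₂⟩
      exact h₂ fun y hy z hz => h₁ z (htr _ _ _ hy hz)
    · rintro ⟨h₁, h₂⟩
      apply h₂
      intro h₃
      obtain ⟨y, hy, hyt⟩ := hterm w
      apply h₃ y hy
      intro z hz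
      by_contra hcon
      apply h₁ y hy
      intro z' hz'
      rw [hyt z' hz']
      rwa [hyt z hz] at hcon

end Pool.Agent.Q297.PFC
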