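import Mathlib

/-! The possibility frame of conditions of an ultrafilter tree forcing, with the shift relation. -/

namespace Pool.Agent.Q297.PFC

/-- Regular open subsets of a partial order (`x ≤ y` is read: `x` refines `y`). -/
def IsRO {S : Type} [LE S] (X : Set S) : Prop :=
  X = {x | ∀ x', x' ≤ x → ∃ x'', x'' ≤ x' ∧ x'' ∈ X}

theorem isRO_iff {S : Type} [LE S] {X : Set S} :
    IsRO X ↔ ∀ x, x ∈ X ↔ ∀ x', x' ≤ x → ∃ x'', x'' ≤ x' ∧ x'' ∈ X := by
  unfold IsRO
  constructor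
  · intro h x
    exact Set.ext_iff.1 h x
  · intro h
    exact Set.ext h

theorem IsRO.down {S : Type} [Preorder S] {X : Set S} (h : IsRO X) {x y : S} (hx : x ∈ X)
    (hyx : y ≤ x) : y ∈ X :=
  (isRO_iff.1 h y).2 fun z hz => (isRO_iff.1 h x).1 hx z (hz.trans hyx)

theorem IsRO.mem {S : Type} [Preorder S] {X : Set S} (h : IsRO X) {x : S}
    (hx : ∀ x', x' ≤ x → ∃ x'', x'' ≤ x' ∧ x'' ∈ X) : x ∈ X :=
  (isRO_iff.1 h x).2 hx

/-- The pseudocomplement: points none of whose refinements are in `X`. -/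
def pneg {S : Type} [LE S] (X : Set S) : Set S := {x | ∀ y, y ≤ x → y ∉ X}

theorem isRO_pneg {S : Type} [Preorder S] {X : Set S} (hX : ∀ x y, x ∈ X → y ≤ x → y ∈ X) :
    IsRO (pneg X) := by
  refine isRO_iff.2 fun x => ⟨fun h x' hx' => ⟨x', le_rfl, fun y hy => h y (hy.trans hx')⟩,
    fun h y hy hyX => ?_⟩
  obtain ⟨z, hz, hzX⟩ := h y hy
  exact hzX z le_rfl (hX y z hyX hz)

theorem pneg_down {S : Type} [Preorder S] {X : Set S} {x y : S} (hx : x ∈ pneg X) (h : y ≤ x) :
    y ∈ pneg X := fun z hz => hx z (hz.trans h)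

/-- A nonprincipal ultrafilter on the natural numbers. -/
noncomputable abbrev U : Ultrafilter ℕ := Filter.hyperfilter ℕ

/-- Conditions: a nonempty stem (a list, read from right to left) and, for each list `v`, a set
`f v` in the ultrafilter of allowed next values. -/
@[ext]
structure Cond where
  stem : List ℕ
  f : List ℕ → Set ℕ
  ne : stem ≠ []
  mem : ∀ v, f v ∈ U

/-- `Reach f s t`: the list `t` extends `s` to the left, by values allowed by `f`. -/
def Reach (f : List ℕ → Set ℕ) (s t : List ℕ) : Prop :=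
  s <:+ t ∧ ∀ k v, (k :: v) <:+ t → s <:+ v → k ∈ f v

theorem reach_refl (f : List ℕ → Set ℕ) (s : List ℕ) : Reach f s s := by
  refine ⟨List.suffix_rfl, fun k v h₁ h₂ => ?_⟩
  have := (h₁.length_le).trans h₂.length_le
  simp at this

theorem Reach.trans {f g : List ℕ → Set ℕ} {s t u : List ℕ} (h₁ : Reach f s t)
    (h₂ : Reach g t u) (hgf : ∀ v, g v ⊆ f v) : Reach f s u := by
  refine ⟨h₁.1.trans h₂.1, fun k v hk hv => ?_⟩
  rcases List.suffix_or_suffix_of_suffix hk h₂.1 with h | h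
  · exact h₁.2 k v h hv
  · rcases List.suffix_cons_iff.1 h with h' | h'
    · exact h₁.2 k v (h' ▸ List.suffix_rfl) hv
    · exact hgf v (h₂.2 k v hk h')

instance : PartialOrder Cond where
  le x y := Reach y.f y.stem x.stem ∧ ∀ v, x.f v ⊆ y.f v
  le_refl x := ⟨reach_refl _ _, fun _ => subset_rfl⟩
  le_trans x y z h₁ h₂ := ⟨h₂.1.trans h₁.1 h₂.2, fun v => (h₁.2 v).trans (h₂.2 v)⟩
  le_antisymm x y h₁ h₂ := by
    refine Cond.ext ?_ (funext fun v => (h₁.2 v).antisymm (h₂.2 v))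
    exact (h₂.1.1.eq_of_length (le_antisymm h₂.1.1.length_le h₁.1.1.length_le))

theorem Cond.le_def {x y : Cond} :
    x ≤ y ↔ Reach y.f y.stem x.stem ∧ ∀ v, x.f v ⊆ y.f v := Iff.rfl

/-- `Sh b x y`: dropping the first values `b` of the stem of `x` gives `y`. -/
def Sh (b : List ℕ) (x y : Cond) : Prop := x.stem = y.stem ++ b ∧ ∀ v, y.f v = x.f (v ++ b)

theorem suffix_append_right {s t b : List ℕ} : s ++ b <:+ t ++ b ↔ s <:+ t := by
  constructor
  · rintro ⟨u, hu⟩
    rw [← List.append_assoc] at hu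
    exact ⟨u, List.append_cancel_right hu⟩
  · rintro ⟨u, hu⟩
    exact ⟨u, by rw [← List.append_assoc, hu]⟩

theorem Sh.down {b : List ℕ} {x y x' : Cond} (h : Sh b x y) (hx : x' ≤ x) :
    ∃ y', y' ≤ y ∧ Sh b x' y' := by
  obtain ⟨⟨⟨u, hu⟩, h₁⟩, h₂⟩ := hx
  rw [h.1] at hu h₁
  have hst : x'.stem = (u ++ y.stem) ++ b := by rw [← hu, List.append_assoc]
  refine ⟨⟨u ++ y.stem, fun v => x'.f (v ++ b), by simp [y.ne], fun v => x'.mem _⟩, ?_, hst,
    fun v => rfl⟩
  refine ⟨⟨⟨u, rfl⟩, fun k v hk hv => ?_⟩, fun v => ?_⟩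
  · rw [h.2]
    refine h₁ k (v ++ b) ?_ (suffix_append_right.2 hv)
    rw [hst, ← List.cons_append]
    exact suffix_append_right.2 hk
  · rw [h.2]
    exact h₂ _

theorem Sh.lift {b : List ℕ} {x y y' : Cond} (h : Sh b x y) (hy : y' ≤ y) :
    ∃ x', x' ≤ x ∧ Sh b x' y' := by
  classical
  have hmem : ∀ w, {m | m ∈ x.f w ∧ ∀ v, w = v ++ b → m ∈ y'.f v} ∈ U := by
    intro w
    by_cases hw : ∃ v, w = v ++ b
    · obtain ⟨v, rfl⟩ := hw
      refine Filter.mem_of_superset (Filter.inter_mem (x.mem (v ++ b)) (y'.mem v)) ?_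
      rintro m ⟨hm, hm'⟩
      refine ⟨hm, fun v' hv' => ?_⟩
      rwa [← List.append_cancel_right hv']
    · refine Filter.mem_of_superset (x.mem w) fun m hm => ⟨hm, fun v hv => (hw ⟨v, hv⟩).elim⟩
  refine ⟨⟨y'.stem ++ b, fun w => {m | m ∈ x.f w ∧ ∀ v, w = v ++ b → m ∈ y'.f v},
    by simp [y'.ne], hmem⟩, ⟨⟨?_, fun k w hk hw => ?_⟩, fun v m hm => hm.1⟩, rfl, fun v => ?_⟩
  · rw [h.1]
    exact suffix_append_right.2 hy.1.1
  · rw [h.1] at hw
    obtain ⟨u, hu⟩ := hw
    rw [← List.append_assoc] at hu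
    subst hu
    rw [← List.cons_append] at hk
    have := hy.1.2 k (u ++ y.stem) (suffix_append_right.1 hk) ⟨u, rfl⟩
    rwa [h.2] at this
  · ext m
    constructor
    · intro hm
      refine ⟨?_, fun v' hv' => ?_⟩
      · rw [← h.2]; exact hy.2 v hm
      · rwa [← List.append_cancel_right hv']
    · intro hm
      exact hm.2 v rfl

theorem Sh.comp {b c : List ℕ} {x y z : Cond} (h : Sh b x y) (h' : Sh c y z) :
    Sh (c ++ b) x z :=
  ⟨by rw [h.1, h'.1, List.append_assoc], fun v => by rw [h'.2, h.2, List.append_assoc]⟩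

/-- The accessibility relation: `y` refines a proper shift of some refinement of `x`. -/
def Acc (x y : Cond) : Prop :=
  ∃ x', x' ≤ x ∧ ∃ b : List ℕ, b ≠ [] ∧ ∃ y', Sh b x' y' ∧ y ≤ y'

theorem Acc.left {x x' y : Cond} (h : Acc x' y) (hx : x' ≤ x) : Acc x y := by
  obtain ⟨z, hz, hh⟩ := h
  exact ⟨z, hz.trans hx, hh⟩

theorem Acc.right {x y y' : Cond} (h : Acc x y) (hy : y' ≤ y) : Acc x y' := by
  obtain ⟨z, hz, b, hb, w, hw, hle⟩ := h
  exact ⟨z, hz, b, hb, w, hw, hy.trans hle⟩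

theorem Acc.trans {x y z : Cond} (h₁ : Acc x y) (h₂ : Acc y z) : Acc x z := by
  obtain ⟨x', hx', b, hb, y', hs, hy'⟩ := h₁
  obtain ⟨y'', hy'', c, hc, z', hs', hz'⟩ := h₂
  obtain ⟨x'', hx'', hs''⟩ := hs.lift (hy''.trans hy')
  exact ⟨x'', hx''.trans hx', c ++ b, by simp [hc], z', hs''.comp hs', hz'⟩

theorem Acc.win {x y : Cond} (h : Acc x y) :
    ∃ x', x' ≤ x ∧ ∀ x'', x'' ≤ x' → ∃ y', y' ≤ y ∧ Acc x'' y' := by
  obtain ⟨x', hx', b, hb, y', hs, hy'⟩ := h
  obtain ⟨x'', hx'', hs''⟩ := hs.lift hy'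
  refine ⟨x'', hx''.trans hx', fun z hz => ?_⟩
  obtain ⟨y'', hy'', hs'''⟩ := hs''.down hz
  exact ⟨y'', hy'', z, le_rfl, b, hb, y'', hs''', le_rfl⟩

/-- The condition with stem `[m]` and no restriction. -/
def top1 (m : ℕ) : Cond := ⟨[m], fun _ => Set.univ, by simp, fun _ => Filter.univ_mem⟩

/-- Every point sees a refinement of `top1 m` for infinitely many `m`. -/
theorem exists_acc (x : Cond) (s : Finset ℕ) : ∃ m, m ∉ s ∧ ∃ y, Acc x y ∧ y ≤ top1 m := by
  have h₁ : x.f x.stem ∩ {m | m ∉ s} ∈ U := by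
    refine Filter.inter_mem (x.mem _) ?_
    have h₀ : ({m | m ∉ s}ᶜ : Set ℕ) = (s : Set ℕ) := by
      ext m
      simp
    exact Filter.mem_hyperfilter_of_finite_compl (by rw [h₀]; exact s.finite_toSet)
  obtain ⟨m, hm, hms⟩ := Ultrafilter.nonempty_of_mem h₁
  refine ⟨m, hms, ⟨[m], fun v => x.f (v ++ x.stem), by simp, fun v => x.mem _⟩, ?_, ?_⟩
  · refine ⟨⟨m :: x.stem, x.f, by simp, x.mem⟩, ⟨⟨List.suffix_cons _ _, fun k v hk hv => ?_⟩,
      fun v => subset_rfl⟩, x.stem, x.ne, _, ⟨?_, fun v => rfl⟩, le_rfl⟩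
    · rcases List.suffix_cons_iff.1 hk with h | h
      · obtain ⟨rfl, rfl⟩ := List.cons.inj h
        exact hm
      · have h₁ := h.length_le
        have h₂ := hv.length_le
        simp at h₁
        omega
    · rfl
  · exact ⟨reach_refl _ _, fun v => Set.subset_univ _⟩

/-- Two conditions refining `top1 m` and `top1 n` with `m ≠ n` have no common refinement. -/
theorem top1_incompat {x y z : Cond} {m n : ℕ} (hx : x ≤ top1 m) (hy : y ≤ top1 n)
    (hzx : z ≤ x) (hzy : z ≤ y) : m = n := by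
  have h₁ : [m] <:+ z.stem := (hzx.trans hx).1.1
  have h₂ : [n] <:+ z.stem := (hzy.trans hy).1.1
  have h₃ : [m] <:+ [n] := List.suffix_of_suffix_length_le h₁ h₂ (by simp)
  have h₄ := h₃.eq_of_length (by simp)
  simpa using h₄

/-- Two conditions with the same stem have a common refinement. -/
def meetf (x : Cond) (g : List ℕ → Set ℕ) (hg : ∀ v, g v ∈ U) : Cond :=
  ⟨x.stem, fun v => x.f v ∩ g v, x.ne, fun v => Filter.inter_mem (x.mem v) (hg v)⟩

theorem meetf_le (x : Cond) (g : List ℕ → Set ℕ) (hg : ∀ v, g v ∈ U) : meetf x g hg ≤ x :=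
  ⟨reach_refl _ _, fun _ => Set.inter_subset_left⟩

theorem meetf_le_of_reach (x y : Cond) (h : Reach y.f y.stem x.stem) :
    meetf x y.f y.mem ≤ y :=
  ⟨h, fun _ => Set.inter_subset_right⟩

/-- Some member of `P` has stem `t`. -/
def Good (P : Set Cond) (t : List ℕ) : Prop := ∃ x ∈ P, x.stem = t

theorem mem_of_compat {P : Set Cond} (hP : IsRO P) {z x : Cond} (hx : x ∈ P)
    (h : ∀ z', z' ≤ z → Reach x.f x.stem z'.stem) : z ∈ P := by
  refine hP.mem fun z' hz' => ⟨meetf z' x.f x.mem, meetf_le _ _ _, hP.down hx ?_⟩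
  exact meetf_le_of_reach z' x (h z' hz')

theorem forall_list_mem {A : Set ℕ} (F : ℕ → Set ℕ) (hF : ∀ m, m ∈ A → F m ∈ U) (w : List ℕ) :
    {k | ∀ m ∈ w, m ∈ A → k ∈ F m} ∈ U := by
  induction w with
  | nil => exact Filter.mem_of_superset Filter.univ_mem fun k _ m hm => by simp at hm
  | cons a w ih =>
    by_cases ha : a ∈ A
    · refine Filter.mem_of_superset (Filter.inter_mem ih (hF a ha)) ?_
      rintro k ⟨h₁, h₂⟩ m hm hmA
      rcases List.mem_cons.1 hm with rfl | h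
      · exact h₂
      · exact h₁ m h hmA
    · refine Filter.mem_of_superset ih fun k h₁ m hm hmA => ?_
      rcases List.mem_cons.1 hm with rfl | h
      · exact (ha hmA).elim
      · exact h₁ m h hmA

theorem good_of_forall {P : Set Cond} (hP : IsRO P) {t : List ℕ} (ht : t ≠ [])
    (h : {m | Good P (m :: t)} ∈ U) : Good P t := by
  classical
  set A := {m | Good P (m :: t)} with hA
  have hex : ∀ m, ∃ X : Cond, m ∈ A → X ∈ P ∧ X.stem = m :: t := by
    intro m
    by_cases hm : m ∈ A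
    · obtain ⟨X, h₁, h₂⟩ := hm
      exact ⟨X, fun _ => ⟨h₁, h₂⟩⟩
    · exact ⟨top1 0, fun h => (hm h).elim⟩
  choose X hX using hex
  have hmem : ∀ w, {k | k ∈ A ∧ ∀ m ∈ w, m ∈ A → k ∈ (X m).f w} ∈ U := fun w =>
    Filter.inter_mem h (forall_list_mem (fun m => (X m).f w) (fun m _ => (X m).mem w) w)
  refine ⟨⟨t, fun w => {k | (w = t → k ∈ A) ∧ ∀ m ∈ w, m ∈ A → k ∈ (X m).f w}, ht, fun w =>
    Filter.mem_of_superset (hmem w) fun k hk => ⟨fun _ => hk.1, hk.2⟩⟩, ?_, rfl⟩
  refine hP.mem fun y hy => ?_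
  have hreach := hy.1
  simp only at hreach
  -- key claim: a refinement whose stem extends `m :: t` has a refinement in `P`
  have key : ∀ z : Cond, z ≤ y → ∀ m, (m :: t) <:+ z.stem → ∃ x'', x'' ≤ z ∧ x'' ∈ P := by
    intro z hz m hm
    have hzr := (hz.trans hy).1
    simp only at hzr
    have hmA : m ∈ A := (hzr.2 m t hm List.suffix_rfl).1 rfl
    refine ⟨meetf z (X m).f (X m).mem, meetf_le _ _ _, hP.down (hX m hmA).1 ?_⟩
    refine meetf_le_of_reach z (X m) ?_
    rw [(hX m hmA).2]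
    refine ⟨hm, fun k v hk hv => ?_⟩
    refine (hzr.2 k v hk ((List.suffix_cons m t).trans hv)).2 m ?_ hmA
    exact hv.subset List.mem_cons_self
  by_cases hst : y.stem = t
  · obtain ⟨m, hm⟩ := Ultrafilter.nonempty_of_mem (y.mem y.stem)
    have hle : (⟨m :: y.stem, y.f, by simp, y.mem⟩ : Cond) ≤ y := by
      refine ⟨⟨List.suffix_cons _ _, fun k v hk hv => ?_⟩, fun v => subset_rfl⟩
      rcases List.suffix_cons_iff.1 hk with h' | h'
      · obtain ⟨rfl, rfl⟩ := List.cons.inj h'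
        exact hm
      · have h₁ := h'.length_le
        have h₂ := hv.length_le
        simp at h₁
        omega
    obtain ⟨x'', h₁, h₂⟩ := key _ hle m (by rw [hst])
    exact ⟨x'', h₁.trans hle, h₂⟩
  · obtain ⟨u, hu⟩ := hreach.1
    have hune : u ≠ [] := by
      rintro rfl
      exact hst hu.symm
    obtain ⟨u', m, rfl⟩ : ∃ u' m, u = u' ++ [m] :=
      ⟨u.dropLast, u.getLast hune, (List.dropLast_append_getLast hune).symm⟩
    refine key y le_rfl m ⟨u', ?_⟩
    rw [← hu, List.append_assoc]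
    rfl

/-- Pure decision. -/
theorem good_or_good {P : Set Cond} (hP : IsRO P) {t : List ℕ} (ht : t ≠ []) :
    Good P t ∨ Good (pneg P) t := by
  by_contra hcon
  have hN : IsRO (pneg P) := isRO_pneg fun x y hx hy => hP.down hx hy
  set bad : List ℕ → Prop := fun t => ¬ (Good P t ∨ Good (pneg P) t) with hbad
  have hstep : ∀ w, w ≠ [] → bad w → {m | bad (m :: w)} ∈ U := by
    intro w hw hb
    have h₁ : {m | Good P (m :: w)} ∉ U := fun h => hb (Or.inl (good_of_forall hP hw h))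
    have h₂ : {m | Good (pneg P) (m :: w)} ∉ U := fun h => hb (Or.inr (good_of_forall hN hw h))
    have h₃ := Ultrafilter.compl_mem_iff_notMem.2 h₁
    have h₄ := Ultrafilter.compl_mem_iff_notMem.2 h₂
    refine Filter.mem_of_superset (Filter.inter_mem h₃ h₄) ?_
    rintro m ⟨hm₁, hm₂⟩ (h | h)
    · exact hm₁ h
    · exact hm₂ h
  have hmem : ∀ w, {m | w ≠ [] → bad w → bad (m :: w)} ∈ U := by
    intro w
    by_cases hw : w ≠ [] ∧ bad w
    · exact Filter.mem_of_superset (hstep w hw.1 hw.2) fun m hm _ _ => hm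
    · exact Filter.mem_of_superset Filter.univ_mem fun m _ h₁ h₂ => (hw ⟨h₁, h₂⟩).elim
  set x : Cond := ⟨t, fun w => {m | w ≠ [] → bad w → bad (m :: w)}, ht, hmem⟩ with hx
  have hall : ∀ y : Cond, y ≤ x → bad y.stem := by
    intro y hy
    obtain ⟨⟨⟨u, hu⟩, hr⟩, -⟩ := hy
    simp only [hx] at hu hr
    have : ∀ u' , u' <:+ u → bad (u' ++ t) := by
      intro u'
      induction u' with
      | nil => intro _; exact hcon
      | cons k u' ih =>
        intro hk
        have h₁ : bad (u' ++ t) := ih ((List.suffix_cons _ _).trans hk)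
        have h₂ := hr k (u' ++ t) (by
          rw [← hu, ← List.cons_append]; exact suffix_append_right.2 hk) ⟨u', rfl⟩
        exact h₂ (by simp [ht]) h₁
    have h₁ := this u List.suffix_rfl
    rwa [hu] at h₁
  have hxN : x ∉ pneg P := fun h => hcon (Or.inr ⟨x, h, rfl⟩)
  simp only [pneg, Set.mem_ofPred_eq, not_forall, not_not] at hxN
  obtain ⟨y, hy, hyP⟩ := hxN
  exact hall y hy (Or.inl ⟨y, hyP, rfl⟩)

/-- If `Q` has members with stem `[m]` for many `m`, then every point sees a point all of whose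
successors are in `Q`. -/
theorem exists_box {Q : Set Cond} (hQ : IsRO Q) (h : {m | Good Q [m]} ∈ U) (x : Cond) :
    ∃ y, Acc x y ∧ ∀ z, Acc y z → z ∈ Q := by
  classical
  set A := {m | Good Q [m]} with hA
  have hex : ∀ m, ∃ X : Cond, m ∈ A → X ∈ Q ∧ X.stem = [m] := by
    intro m
    by_cases hm : m ∈ A
    · obtain ⟨X, h₁, h₂⟩ := hm
      exact ⟨X, fun _ => ⟨h₁, h₂⟩⟩
    · exact ⟨top1 0, fun h => (hm h).elim⟩
  choose X hX using hex
  obtain ⟨m0, hm0, hm0A⟩ := Ultrafilter.nonempty_of_mem (Filter.inter_mem (x.mem x.stem) h)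
  set G : List ℕ → Set ℕ := fun w =>
    {k | k ∈ x.f (w ++ x.stem) ∧ k ∈ A ∧ ∀ v b, w = v ++ b → ∀ m ∈ v, m ∈ A → k ∈ (X m).f v}
    with hG
  have hGmem : ∀ w, G w ∈ U := by
    intro w
    have h₁ : ∀ w' : List ℕ, ∀ l : List (List ℕ),
        {k | ∀ v ∈ l, ∀ m ∈ v, m ∈ A → k ∈ (X m).f v} ∈ U := by
      intro _ l
      induction l with
      | nil => exact Filter.mem_of_superset Filter.univ_mem fun k _ v hv => by simp at hv
      | cons a l ih =>
        refine Filter.mem_of_superset (Filter.inter_mem ih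
          (forall_list_mem (A := A) (fun m => (X m).f a) (fun m _ => (X m).mem a) a)) ?_
        rintro k ⟨h₁, h₂⟩ v hv
        rcases List.mem_cons.1 hv with rfl | h
        · exact h₂
        · exact h₁ v h
    refine Filter.mem_of_superset (Filter.inter_mem (x.mem (w ++ x.stem))
      (Filter.inter_mem h (h₁ [] w.inits))) ?_
    rintro k ⟨h₂, h₃, h₄⟩
    refine ⟨h₂, h₃, fun v b hvb => h₄ v ?_⟩
    rw [List.mem_inits]
    exact ⟨b, hvb.symm⟩
  set y : Cond := ⟨[m0], G, by simp, hGmem⟩ with hy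
  refine ⟨y, ?_, ?_⟩
  · refine ⟨⟨m0 :: x.stem, x.f, by simp, x.mem⟩, ⟨⟨List.suffix_cons _ _, fun k v hk hv => ?_⟩,
      fun v => subset_rfl⟩, x.stem, x.ne, ⟨[m0], fun v => x.f (v ++ x.stem), by simp,
      fun v => x.mem _⟩, ⟨rfl, fun v => rfl⟩, reach_refl _ _, fun v k hk => hk.1⟩
    rcases List.suffix_cons_iff.1 hk with h' | h'
    · obtain ⟨rfl, rfl⟩ := List.cons.inj h'
      exact hm0
    · have h₁ := h'.length_le
      have h₂ := hv.length_le
      simp at h₁
      omega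
  · rintro z ⟨y', hy', b, hb, z', hs, hz⟩
    refine hQ.down ?_ hz
    have hr := hy'.1
    simp only [hy] at hr
    have hst := hs.1
    -- the last element of the stem of `z'`
    obtain ⟨u, m, hum⟩ : ∃ u m, z'.stem = u ++ [m] :=
      ⟨z'.stem.dropLast, z'.stem.getLast z'.ne, (List.dropLast_append_getLast z'.ne).symm⟩
    have hm0b : [m0] <:+ b := by
      refine List.suffix_of_suffix_length_le hr.1 (hst ▸ List.suffix_append _ _) ?_
      have := List.length_pos_iff.2 hb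
      simp only [List.length_singleton]
      omega
    have hmA : m ∈ A := by
      have h₁ : (m :: b) <:+ y'.stem := by
        refine ⟨u, ?_⟩
        rw [hst, hum, List.append_assoc]
        rfl
      exact (hr.2 m b h₁ hm0b).2.1
    refine mem_of_compat hQ (hX m hmA).1 fun z'' hz'' => ?_
    rw [(hX m hmA).2]
    have hmz : [m] <:+ z'.stem := ⟨u, hum.symm⟩
    refine ⟨hmz.trans hz''.1.1, fun k v hk hv => ?_⟩
    have hmv : m ∈ v := hv.subset (by simp)
    have hkG : k ∈ G (v ++ b) := by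
      rcases List.suffix_or_suffix_of_suffix hk hz''.1.1 with h' | h'
      · refine hr.2 k (v ++ b) ?_ ?_
        · rw [hst, ← List.cons_append]
          exact suffix_append_right.2 h'
        · exact hm0b.trans (List.suffix_append _ _)
      · rcases List.suffix_cons_iff.1 h' with h'' | h''
        · refine hr.2 k (v ++ b) ?_ ?_
          · rw [hst, ← List.cons_append, h'']
          · exact hm0b.trans (List.suffix_append _ _)
        · have h₃ := hz''.1.2 k v hk h''
          rw [hs.2] at h₃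
          exact hy'.2 _ h₃
    exact hkG.2.2 v b rfl m hmv hmA

end Pool.Agent.Q297.PFC
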