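import Pool.Agent.Q297.PFC.Kripke
import Pool.Agent.Q297.PFC.Tree

/-! Full possibility frames: the formula `4 ∧ M` has no first-order correspondent. -/

namespace Pool.Agent.Q297.PFC

open FirstOrder FirstOrder.Language

/-- Forcing in a possibility frame; `x' ≤ x` means that `x'` refines `x`. -/
def Force {I S : Type} [LE S] (R : I → S → S → Prop) (V : ℕ → Set S) : Form I → S → Prop
  | .var n, x => x ∈ V n
  | .neg A, x => ∀ x', x' ≤ x → ¬ Force R V A x'
  | .and A B, x => Force R V A x ∧ Force R V B x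
  | .box i A, x => ∀ y, R i x y → Force R V A y

/-- Full possibility frames: the regular open sets are closed under every `□_i`. -/
def IsFull {I S : Type} [PartialOrder S] (R : I → S → S → Prop) : Prop :=
  ∀ (i : I) (X : Set S), IsRO X → IsRO {x | ∀ y, R i x y → y ∈ X}

/-- Validity on a possibility frame: forced at every point, under every valuation of the variables
by regular open sets. -/
def PValid {I S : Type} [PartialOrder S] (R : I → S → S → Prop) (A : Form I) : Prop :=
  ∀ V : ℕ → Set S, (∀ n, IsRO (V n)) → ∀ x, Force R V A x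

/-- Relation symbols of the language of Kripke frames. -/
inductive KRel (I : Type) : ℕ → Type
  | acc (i : I) : KRel I 2

/-- The first-order language of Kripke frames. -/
def Lk (I : Type) : FirstOrder.Language := ⟨fun _ => Empty, KRel I⟩

/-- A Kripke frame as a first-order structure. -/
@[reducible]
def kStr {I W : Type} (R : I → W → W → Prop) : (Lk I).Structure W where
  funMap := fun f => Empty.elim f
  RelMap := fun {n} (r : KRel I n) =>
    match n, r with
    | _, .acc i => fun v => R i (v 0) (v 1)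

/-- Relation symbols of the language of possibility frames. -/
inductive PRel (I : Type) : ℕ → Type
  | le : PRel I 2
  | acc (i : I) : PRel I 2

/-- The first-order language of possibility frames. -/
def Lp (I : Type) : FirstOrder.Language := ⟨fun _ => Empty, PRel I⟩

/-- A possibility frame as a first-order structure. -/
@[reducible]
def pStr {I S : Type} [LE S] (R : I → S → S → Prop) : (Lp I).Structure S where
  funMap := fun f => Empty.elim f
  RelMap := fun {n} (r : PRel I n) =>
    match n, r with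
    | _, .le => fun v => v 0 ≤ v 1
    | _, .acc i => fun v => R i (v 0) (v 1)

/-- The sentence `α` holds in the Kripke frame with relations `R`. -/
def KHolds {I W : Type} (R : I → W → W → Prop) (α : (Lk I).Sentence) : Prop :=
  @Sentence.Realize (Lk I) W (kStr R) α

/-- The sentence `β` holds in the possibility frame with order `≤` and relations `R`. -/
def PHolds {I S : Type} [LE S] (R : I → S → S → Prop) (β : (Lp I).Sentence) : Prop :=
  @Sentence.Realize (Lp I) S (pStr R) β

section KripkeSentence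

variable {I : Type} (i : I)

/-- The relation symbol applied to two variables. -/
def kacc {n : ℕ} (a b : Fin n) : (Lk I).BoundedFormula Empty n :=
  Relations.boundedFormula₂ (L := Lk I) (KRel.acc i) (Term.var (Sum.inr a)) (Term.var (Sum.inr b))

/-- The classical first-order correspondent. -/
def ksent : (Lk I).Sentence :=
  BoundedFormula.all (BoundedFormula.all (BoundedFormula.all
    ((kacc i (n := 3) 0 1).imp ((kacc i (n := 3) 1 2).imp (kacc i (n := 3) 0 2))))) ⊓
  BoundedFormula.all (BoundedFormula.ex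
    ((kacc i (n := 2) 0 1) ⊓ BoundedFormula.all ((kacc i (n := 3) 1 2).imp
      (Term.bdEqual (Term.var (Sum.inr 2)) (Term.var (Sum.inr 1))))))

theorem kHolds_ksent {W : Type} (R : I → W → W → Prop) :
    KHolds R (ksent i) ↔
      (∀ x y z, R i x y → R i y z → R i x z) ∧ ∀ x, ∃ y, R i x y ∧ ∀ z, R i y z → z = y := by
  letI := kStr R
  unfold KHolds
  simp only [ksent, Sentence.Realize, Formula.Realize, BoundedFormula.realize_inf,
    BoundedFormula.realize_all, BoundedFormula.realize_ex, BoundedFormula.realize_imp,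
    BoundedFormula.realize_bdEqual, kacc, BoundedFormula.realize_rel₂]
  rfl

end KripkeSentence

section Full

theorem isFull_of {I S : Type} [PartialOrder S] (R : I → S → S → Prop)
    (h₁ : ∀ i x x' y, x' ≤ x → R i x' y → R i x y) (h₂ : ∀ i x y y', R i x y → y' ≤ y → R i x y')
    (h₃ : ∀ i x y, R i x y → ∃ x', x' ≤ x ∧ ∀ x'', x'' ≤ x' → ∃ y', y' ≤ y ∧ R i x'' y') :
    IsFull R := by
  intro i X hX
  refine isRO_iff.2 fun x => ⟨fun hx x' hx' => ⟨x', le_rfl, fun y hy => hx y (h₁ i x x' y hx' hy)⟩,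
    fun hx y hy => ?_⟩
  refine hX.mem fun y' hy' => ?_
  by_contra hcon
  push Not at hcon
  obtain ⟨x', hx', hx''⟩ := h₃ i x y' (h₂ i x y y' hy hy')
  obtain ⟨x'', h₄, h₅⟩ := hx x' hx'
  obtain ⟨z, hz, hRz⟩ := hx'' x'' h₄
  exact hcon z hz (h₅ z hRz)

/-- The tree frame is a full possibility frame. -/
theorem isFull_cond (I : Type) : IsFull (fun (_ : I) (x y : Cond) => Acc x y) :=
  isFull_of _ (fun _ _ _ _ h h' => h'.left h) (fun _ _ _ _ h h' => h.right h')
    (fun _ _ _ h => h.win)

/-- The tree frame validates transitivity plus McKinsey. -/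
theorem pValid_cond {I : Type} (i : I) :
    PValid (fun (_ : I) (x y : Cond) => Acc x y) (Form.lemmon i) := by
  intro V hV x
  simp only [Form.lemmon, Form.imp, Form.dia, Force]
  refine ⟨?_, ?_⟩
  · rintro x' - ⟨h₁, h₂⟩
    exact h₂ x' le_rfl fun y hy z hz => h₁ z (hy.trans hz)
  · rintro x' - ⟨h₁, h₂⟩
    have hP := hV 0
    have hN : IsRO (pneg (V 0)) := isRO_pneg fun x y hx hy => hP.down hx hy
    have hor : {m : ℕ | Good (V 0) [m]} ∈ U ∨ {m : ℕ | Good (pneg (V 0)) [m]} ∈ U := by
      rw [← Ultrafilter.union_mem_iff]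
      refine Filter.mem_of_superset Filter.univ_mem fun m _ => ?_
      exact good_or_good hP (by simp)
    rcases hor with h | h
    · refine h₂ x' le_rfl fun z _ hz => ?_
      obtain ⟨y, hy, hyb⟩ := exists_box hP h z
      exact hz y hy y le_rfl hyb
    · obtain ⟨y, hy, hyb⟩ := exists_box hN h x'
      exact h₁ y hy y le_rfl fun z hz z' hz' => hyb z hz z' hz'

end Full

section Elementary

/-- Collapsing all accessibility symbols to one. -/
def collapse (I : Type) : Lp I →ᴸ Lp Unit where
  onFunction := fun _ f => Empty.elim f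
  onRelation := fun n (r : PRel I n) =>
    match n, r with
    | _, .le => PRel.le
    | _, .acc _ => PRel.acc ()

theorem pHolds_collapse {I S : Type} [LE S] (r : S → S → Prop) (β : (Lp I).Sentence) :
    PHolds (fun _ => r) ((collapse I).onSentence β) ↔ PHolds (fun _ => r) β := by
  letI : (Lp I).Structure S := pStr (fun _ => r)
  letI : (Lp Unit).Structure S := pStr (fun _ => r)
  haveI : (collapse I).IsExpansionOn S := by
    refine ⟨fun f _ => Empty.elim f, ?_⟩
    intro n R x
    match n, R with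
    | _, PRel.le => rfl
    | _, PRel.acc _ => rfl
  exact LHom.realize_onSentence (φ := collapse I) S β

variable {n : ℕ}

/-- The order symbol. -/
def ple (a b : (Lp Unit).Term (Fin 2 ⊕ Fin n)) : (Lp Unit).BoundedFormula (Fin 2) n :=
  Relations.boundedFormula₂ (L := Lp Unit) PRel.le a b

/-- The accessibility symbol. -/
def pacc (a b : (Lp Unit).Term (Fin 2 ⊕ Fin n)) : (Lp Unit).BoundedFormula (Fin 2) n :=
  Relations.boundedFormula₂ (L := Lp Unit) (PRel.acc ()) a b

/-- `∃ a ≤ x, ∀ b ≤ a, ∃ c ≤ y, b R c`. -/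
def fwin : (Lp Unit).Formula (Fin 2) :=
  BoundedFormula.ex ((ple (Term.var (Sum.inr (0 : Fin 1))) (Term.var (Sum.inl 0))) ⊓
    BoundedFormula.all ((ple (Term.var (Sum.inr (1 : Fin 2))) (Term.var (Sum.inr 0))).imp
      (BoundedFormula.ex ((ple (Term.var (Sum.inr (2 : Fin 3))) (Term.var (Sum.inl 1))) ⊓
        (pacc (Term.var (Sum.inr (1 : Fin 3))) (Term.var (Sum.inr 2)))))))

/-- `∃ y, x R y ∧ y ≤ z`. -/
def fsee : (Lp Unit).Formula (Fin 2) :=
  BoundedFormula.ex ((pacc (Term.var (Sum.inl 0)) (Term.var (Sum.inr (0 : Fin 1)))) ⊓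
    (ple (Term.var (Sum.inr (0 : Fin 1))) (Term.var (Sum.inl 1))))

theorem realize_fwin {S : Type} [LE S] (R : Unit → S → S → Prop) (v : Fin 2 → S) :
    letI := pStr R
    fwin.Realize v ↔ ∃ a, a ≤ v 0 ∧ ∀ b, b ≤ a → ∃ c, c ≤ v 1 ∧ R () b c := by
  letI := pStr R
  simp only [fwin, Formula.Realize, BoundedFormula.realize_inf,
    BoundedFormula.realize_all, BoundedFormula.realize_ex, BoundedFormula.realize_imp,
    ple, pacc, BoundedFormula.realize_rel₂]
  rfl

theorem realize_fsee {S : Type} [LE S] (R : Unit → S → S → Prop) (v : Fin 2 → S) :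
    letI := pStr R
    fsee.Realize v ↔ ∃ y, R () (v 0) y ∧ y ≤ v 1 := by
  letI := pStr R
  simp only [fsee, Formula.Realize, BoundedFormula.realize_inf,
    BoundedFormula.realize_ex, ple, pacc, BoundedFormula.realize_rel₂]
  rfl

end Elementary

theorem card_le : (Lp Unit).card ≤ Cardinal.aleph0 := by
  haveI : IsEmpty (Σ l, (Lp Unit).Functions l) := ⟨fun f => Empty.elim f.2⟩
  haveI : Countable (Σ l, (Lp Unit).Relations l) := by
    have hs : Function.Surjective (fun b : Bool => (⟨2, if b then (PRel.le : PRel Unit 2) else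
        PRel.acc ()⟩ : Σ l, (Lp Unit).Relations l)) := by
      rintro ⟨n, r⟩
      change PRel Unit n at r
      match n, r with
      | _, PRel.le => exact ⟨true, rfl⟩
      | _, PRel.acc _ => exact ⟨false, rfl⟩
    exact hs.countable
  haveI : Countable (Lp Unit).Symbols := by
    unfold Symbols
    infer_instance
  exact Cardinal.mk_le_aleph0

theorem infinite_cond : Cardinal.aleph0 ≤ Cardinal.mk Cond := by
  haveI : Infinite Cond := Infinite.of_injective top1 fun m n h => by
    have := congrArg Cond.stem h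
    simpa [top1] using this
  exact Cardinal.aleph0_le_mk Cond

/-- A countable set of conditions, containing all `top1 m`, which is elementary. -/
theorem exists_sub : ∃ S : Set Cond, S.Countable ∧ (∀ m, top1 m ∈ S) ∧
    (∀ φ : (Lp Unit).Sentence, PHolds (fun _ (x y : S) => Acc x y) φ ↔
      PHolds (fun _ (x y : Cond) => Acc x y) φ) ∧
    (∀ x y : S, (∃ x' : S, x' ≤ x ∧ ∀ x'' : S, x'' ≤ x' → ∃ y' : S, y' ≤ y ∧ Acc x'' y') ↔
      (∃ x', x' ≤ x.1 ∧ ∀ x'', x'' ≤ x' → ∃ y', y' ≤ y.1 ∧ Acc x'' y')) ∧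
    (∀ x z : S, (∃ y : S, Acc x y ∧ y ≤ z) ↔ ∃ y, Acc x.1 y ∧ y ≤ z.1) := by
  letI inst : (Lp Unit).Structure Cond := pStr (fun _ => Acc)
  obtain ⟨S, hS, hcard⟩ := exists_elementarySubstructure_card_eq (Lp Unit) (M := Cond)
    (Set.range top1) Cardinal.aleph0.{0} le_rfl
    (by simpa using Cardinal.mk_le_aleph0_iff.2 (Set.countable_range top1).to_subtype)
    (by simpa using card_le) (by simpa using infinite_cond)
  have heq : (ElementarySubstructure.inducedStructure S : (Lp Unit).Structure S) =
      pStr (fun (_ : Unit) (x y : S) => Acc x y) := by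
    refine Structure.ext ?_ ?_
    · funext n f
      exact Empty.elim f
    · funext n r x
      change PRel Unit n at r
      match n, r with
      | _, PRel.le => rfl
      | _, PRel.acc _ => rfl
  have hf : ∀ (φ : (Lp Unit).Formula (Fin 2)) (x : Fin 2 → S),
      (@Formula.Realize (Lp Unit) S (pStr (fun (_ : Unit) (x y : S) => Acc x y)) _ φ x ↔
        φ.Realize (fun i => (x i : Cond))) := by
    intro φ x
    rw [← heq]
    exact (S.subtype.map_formula φ x).symm
  refine ⟨(S : Set Cond), ?_, fun m => hS ⟨m, rfl⟩, fun φ => ?_, fun x y => ?_, fun x z => ?_⟩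
  · have : Cardinal.mk S ≤ Cardinal.aleph0 := by simpa using hcard.le
    exact (Cardinal.mk_le_aleph0_iff.1 this).to_set
  · unfold PHolds
    have h := S.realize_sentence φ
    rw [heq] at h
    exact h
  · have h := hf fwin ![x, y]
    rw [realize_fwin, realize_fwin (fun _ => Acc)] at h
    exact h
  · have h := hf fsee ![x, z]
    rw [realize_fsee, realize_fsee (fun _ => Acc)] at h
    exact h

section Countable

/-- In a countable set of conditions as above, McKinsey fails. -/
theorem not_pValid {I : Type} (i : I) (S : Set Cond) (hcount : S.Countable)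
    (htop : ∀ m, top1 m ∈ S)
    (hsee : ∀ x z : S, (∃ y : S, Acc x y ∧ y ≤ z) ↔ ∃ y, Acc x.1 y ∧ y ≤ z.1) :
    ¬ PValid (fun (_ : I) (x y : S) => Acc x.1 y.1) (Form.lemmon i) := by
  classical
  intro hv
  haveI : Countable S := hcount.to_subtype
  haveI : Nonempty S := ⟨⟨top1 0, htop 0⟩⟩
  obtain ⟨e, he⟩ := exists_surjective_nat S
  set D : S → Set ℕ := fun x => {m | ∃ y : S, Acc x y ∧ y ≤ (⟨top1 m, htop m⟩ : S)} with hD
  have hinf : ∀ x, (D x).Infinite := by
    intro x
    rw [← Set.infinite_coe_iff]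
    by_contra hfin
    rw [not_infinite_iff_finite] at hfin
    have hfin' : (D x).Finite := hfin
    obtain ⟨m, hm, y, hy, hle⟩ := exists_acc x.1 hfin'.toFinset
    refine hm ?_
    rw [Set.Finite.mem_toFinset]
    exact (hsee x ⟨top1 m, htop m⟩).2 ⟨y, hy, hle⟩
  have hnext : ∀ (x : S) (N : ℕ), ∃ m, m ∈ D x ∧ N < m := fun x N =>
    ((hinf x).exists_gt N).imp fun m hm => ⟨hm.1, hm.2⟩
  choose nx hnx using hnext
  obtain ⟨g, hg0, hgs⟩ : ∃ g : ℕ → ℕ, g 0 = nx (e 0) 0 ∧
      ∀ k, g (k + 1) = nx (e ((k + 1) / 2)) (g k) :=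
    ⟨fun k => Nat.rec (nx (e 0) 0) (fun k r => nx (e ((k + 1) / 2)) r) k, rfl, fun k => rfl⟩
  have hgD : ∀ k, g k ∈ D (e (k / 2)) := by
    intro k
    cases k with
    | zero => rw [hg0]; exact (hnx _ _).1
    | succ k => rw [hgs]; exact (hnx _ _).1
  have hmono : StrictMono g := strictMono_nat_of_lt_succ fun k => by
    rw [hgs]; exact (hnx _ _).2
  set P : Set ℕ := {m | ∃ n, m = g (2 * n)} with hP
  set O : Set S := {x | ∃ m ∈ P, x ≤ (⟨top1 m, htop m⟩ : S)} with hO
  have hOdown : ∀ x y : S, x ∈ O → y ≤ x → y ∈ O := fun x y ⟨m, hm, hx⟩ hy =>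
    ⟨m, hm, hy.trans hx⟩
  have hX : IsRO (pneg O) := isRO_pneg hOdown
  -- every point sees a point of `O` and a point of `pneg O`
  have h₁ : ∀ x : S, ∃ y : S, Acc x.1 y.1 ∧ y ∈ O := by
    intro x
    obtain ⟨n, rfl⟩ := he x
    have := hgD (2 * n)
    rw [Nat.mul_div_cancel_left n (by norm_num)] at this
    obtain ⟨y, hy, hle⟩ := this
    exact ⟨y, hy, _, ⟨n, rfl⟩, hle⟩
  have h₂ : ∀ x : S, ∃ y : S, Acc x.1 y.1 ∧ y ∈ pneg O := by
    intro x
    obtain ⟨n, rfl⟩ := he x
    have := hgD (2 * n + 1)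
    have h2 : (2 * n + 1) / 2 = n := by omega
    rw [h2] at this
    obtain ⟨y, hy, hle⟩ := this
    refine ⟨y, hy, ?_⟩
    rintro z hz ⟨m, ⟨n', rfl⟩, hzm⟩
    have := top1_incompat (x := y.1) (y := z.1) (z := z.1) hle hzm hz le_rfl
    have := hmono.injective this
    omega
  have hfor := hv (fun _ => pneg O) (fun _ => hX) ⟨top1 0, htop 0⟩
  simp only [Form.lemmon, Form.imp, Form.dia, Force] at hfor
  refine hfor.2 _ le_rfl ⟨fun y _ y' _ h => ?_, fun x' _ h => ?_⟩
  · obtain ⟨z, hz, hzO⟩ := h₂ y'
    exact h z hz z le_rfl hzO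
  · refine h x' le_rfl fun y _ y' _ h' => ?_
    obtain ⟨z, hz, hzO⟩ := h₁ y'
    exact h' z hz z le_rfl hzO

end Countable

/-- `4 ∧ M` has no first-order correspondent over full possibility frames. -/
theorem no_correspondent {I : Type} (i : I) (β : (Lp I).Sentence)
    (h : ∀ (S : Type) [Nonempty S] [PartialOrder S] (R : I → S → S → Prop), IsFull R →
      (PValid R (Form.lemmon i) ↔ PHolds R β)) : False := by
  obtain ⟨S, hcount, htop, hsent, hwin, hsee⟩ := exists_sub
  haveI : Nonempty Cond := ⟨top1 0⟩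
  haveI : Nonempty S := ⟨⟨top1 0, htop 0⟩⟩
  have hβ : PHolds (fun (_ : I) (x y : Cond) => Acc x y) β :=
    (h Cond _ (isFull_cond I)).1 (pValid_cond i)
  have hβ' : PHolds (fun (_ : I) (x y : S) => Acc x.1 y.1) β := by
    rw [← pHolds_collapse] at hβ ⊢
    exact (hsent _).2 hβ
  have hfull : IsFull (fun (_ : I) (x y : S) => Acc x.1 y.1) := by
    refine isFull_of _ (fun _ _ _ _ h₁ h₂ => Acc.left h₂ h₁) (fun _ _ _ _ h₁ h₂ => h₁.right h₂) ?_
    intro _ x y hxy
    exact (hwin x y).2 hxy.win
  exact not_pValid i S hcount htop hsee ((h S _ hfull).2 hβ')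

/-- The full statement: for every index set there is a formula with a first-order correspondent
over Kripke frames and none over full possibility frames. -/
theorem main (I : Type) [Nonempty I] : ∃ A : Form I,
    (∃ α : (Lk I).Sentence, ∀ (W : Type) [Nonempty W] (R : I → W → W → Prop),
      KValid R A ↔ KHolds R α) ∧
    ¬ ∃ β : (Lp I).Sentence, ∀ (S : Type) [Nonempty S] [PartialOrder S] (R : I → S → S → Prop),
      IsFull R → (PValid R A ↔ PHolds R β) := by
  obtain ⟨i⟩ := ‹Nonempty I›
  refine ⟨Form.lemmon i, ⟨ksent i, fun W _ R => ?_⟩, ?_⟩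
  · rw [kHolds_ksent, kValid_lemmon]
  · rintro ⟨β, hβ⟩
    exact no_correspondent i β hβ

end Pool.Agent.Q297.PFC
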